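import Pool.Agent.X86.OM.Final

set_option autoImplicit false

open Set Filter Topology
open Pool.Agent.X86.OM

namespace Pool.Agent.Results.MP_6b2627_an.SpectrumDrops

/-- Negative answer to Q1. For the concave modulus `ω(t) = √t`, for which
`η = lim log ω(t) / log t = 1/2 < 1`, there are a nonempty open subset `U` of `C^ω[0,1]` and
`θ₀ < η` such that every `f ∈ U` has `dim_A^θ G_f < 2 - (η-θ)/(1-θ)` for all `θ ∈ (0,η]` with
`θ > θ₀`. Hence the set of `f` satisfying the identity for all `θ ∈ (0,η]` is not residual. -/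
theorem result : ∃ ω : Modulus, (∀ t, ω.toFun t = √t) ∧ ConcaveOn ℝ (Icc 0 1) ω.toFun ∧
    Tendsto (fun t => Real.log (ω.toFun t) / Real.log t) (𝓝[>] 0) (𝓝 (1 / 2)) ∧
    (∃ U : Set (COmega ω), IsOpen U ∧ U.Nonempty ∧ ∃ θ₀ < (1 / 2 : ℝ), ∀ f ∈ U, ∀ θ : ℝ,
      0 < θ → θ₀ < θ → θ ≤ 1 / 2 →
        assouadSpectrum θ (graph f) < 2 - (1 / 2 - θ) / (1 - θ)) ∧
    {f : COmega ω | ∀ θ ∈ Ioc (0 : ℝ) (1 / 2),
      assouadSpectrum θ (graph f) = 2 - (1 / 2 - θ) / (1 - θ)} ∉ residual (COmega ω) := by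
  have key : ∀ f ∈ Metric.ball f0 (1 / 36 : ℝ), ∀ θ : ℝ, 0 < θ → (β0 - 1) / 2 < θ → θ ≤ 1 / 2 →
      assouadSpectrum θ (graph f) < 2 - (1 / 2 - θ) / (1 - θ) := by
    intro f hf θ h0 h1 h2
    have h3 : assouadSpectrum θ (graph f) ≤ β0 := ball_spec f hf (by linarith)
    have h4 : (1 / 2 - θ) / (1 - θ) ≤ 1 - 2 * θ := by
      rw [div_le_iff₀ (by linarith)]
      nlinarith
    linarith
  have hθ0 : (β0 - 1) / 2 < 1 / 2 := by linarith [β0_lt]
  refine ⟨sqrtMod, fun t => rfl, sqrtMod_concave, sqrtMod_log,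
    ⟨Metric.ball f0 (1 / 36), Metric.isOpen_ball, ⟨f0, Metric.mem_ball_self (by norm_num)⟩,
      (β0 - 1) / 2, hθ0, key⟩, ?_⟩
  intro h
  obtain ⟨g, hg1, hg2⟩ := (dense_of_mem_residual h).inter_open_nonempty
    (Metric.ball f0 (1 / 36)) Metric.isOpen_ball ⟨f0, Metric.mem_ball_self (by norm_num)⟩
  have h1 := key g hg1 (1 / 2) (by norm_num) hθ0 le_rfl
  have h2 := hg2 (1 / 2) ⟨by norm_num, le_rfl⟩
  linarith

end Pool.Agent.Results.MP_6b2627_an.SpectrumDrops
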